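import Mathlib

/-!
# Three-graphs from a bipartition and a pairing

Hyperedges of the three-graph of a class map `cl` and a pairing `m` with values in `ZMod 2`.
-/

set_option autoImplicit false

namespace Pool.Agent.N102.EPPA

open Finset

variable {V : Type*} [DecidableEq V]

/-- the hyperedges of the three-graph of a class map and a pairing -/
def IsHyp (cl : V → Bool) (m : V → V → ZMod 2) (E : Finset V) : Prop :=
  ∃ a a' b b', a ≠ a' ∧ b ≠ b' ∧ cl a = true ∧ cl a' = true ∧ cl b = false ∧ cl b' = false ∧
    E = {a, a', b, b'} ∧ m a b + m a' b + m a b' + m a' b' = 1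

lemma two_self (x : ZMod 2) : x + x = 0 := CharTwo.add_self_eq_zero x

lemma ite_one (q : ZMod 2) : (if q = 1 then (1 : ZMod 2) else 0) = q := by
  revert q; decide

/-- the number of members of a family of `4`-sets inside a `5`-set -/
lemma card_sub (F : Finset (Finset V)) (h4 : ∀ E ∈ F, E.card = 4) (S : Finset V)
    (hS : S.card = 5) [∀ E : Finset V, Decidable (E ⊆ S)]
    [∀ s : V, Decidable (S.erase s ∈ F)] :
    ((F.filter (fun E => E ⊆ S)).card : ZMod 2)
      = ∑ s ∈ S, if S.erase s ∈ F then (1 : ZMod 2) else 0 := by
  have h1 : (F.filter (fun E => E ⊆ S)).card = (S.filter (fun s => S.erase s ∈ F)).card := by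
    symm
    apply Finset.card_bij (fun s _ => S.erase s)
    · intro s hs
      rw [mem_filter] at hs ⊢
      exact ⟨hs.2, erase_subset _ _⟩
    · intro a ha b hb h
      rw [mem_filter] at ha hb
      exact Finset.erase_injOn S ha.1 hb.1 h
    · intro E hE
      rw [mem_filter] at hE
      have h2 : (S \ E).card = 1 := by
        rw [card_sdiff_of_subset hE.2, hS, h4 E hE.1]
      obtain ⟨s, hs⟩ := card_eq_one.1 h2
      have hsS : s ∈ S \ E := by rw [hs]; exact mem_singleton_self s
      rw [mem_sdiff] at hsS
      have h3 : S.erase s = E := by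
        ext x
        rw [mem_erase]
        constructor
        · rintro ⟨hx1, hx2⟩
          by_contra hx3
          have : x ∈ S \ E := mem_sdiff.2 ⟨hx2, hx3⟩
          rw [hs, mem_singleton] at this
          exact hx1 this
        · intro hx
          refine ⟨?_, hE.2 hx⟩
          rintro rfl
          exact hsS.2 hx
      exact ⟨s, mem_filter.2 ⟨hsS.1, by rw [h3]; exact hE.1⟩, h3⟩
  rw [h1, card_filter]
  push_cast
  rfl

lemma isHyp_mk {cl : V → Bool} {m : V → V → ZMod 2} {a a' b b' : V} (ha : a ≠ a') (hb : b ≠ b')
    (h1 : cl a = true) (h2 : cl a' = true) (h3 : cl b = false) (h4 : cl b' = false) :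
    IsHyp cl m {a, a', b, b'} ↔ m a b + m a' b + m a b' + m a' b' = 1 := by
  constructor
  · rintro ⟨c, c', d, d', hc, hd, k1, k2, k3, k4, hE, hm⟩
    have e1 : c ∈ ({a, a', b, b'} : Finset V) := by rw [hE]; simp
    have e2 : c' ∈ ({a, a', b, b'} : Finset V) := by rw [hE]; simp
    have e3 : d ∈ ({a, a', b, b'} : Finset V) := by rw [hE]; simp
    have e4 : d' ∈ ({a, a', b, b'} : Finset V) := by rw [hE]; simp
    simp only [mem_insert, mem_singleton] at e1 e2 e3 e4
    have f1 : c = a ∨ c = a' := by
      rcases e1 with h | h | h | h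
      · exact Or.inl h
      · exact Or.inr h
      · rw [h, h3] at k1; exact absurd k1 (by decide)
      · rw [h, h4] at k1; exact absurd k1 (by decide)
    have f2 : c' = a ∨ c' = a' := by
      rcases e2 with h | h | h | h
      · exact Or.inl h
      · exact Or.inr h
      · rw [h, h3] at k2; exact absurd k2 (by decide)
      · rw [h, h4] at k2; exact absurd k2 (by decide)
    have f3 : d = b ∨ d = b' := by
      rcases e3 with h | h | h | h
      · rw [h, h1] at k3; exact absurd k3 (by decide)
      · rw [h, h2] at k3; exact absurd k3 (by decide)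
      · exact Or.inl h
      · exact Or.inr h
    have f4 : d' = b ∨ d' = b' := by
      rcases e4 with h | h | h | h
      · rw [h, h1] at k4; exact absurd k4 (by decide)
      · rw [h, h2] at k4; exact absurd k4 (by decide)
      · exact Or.inl h
      · exact Or.inr h
    rcases f1 with rfl | rfl <;> rcases f2 with rfl | rfl <;> rcases f3 with rfl | rfl <;>
      rcases f4 with rfl | rfl <;> first | exact absurd rfl hc | exact absurd rfl hd | skip
    all_goals first | exact hm | (rw [← hm]; ring)
  · intro h
    exact ⟨a, a', b, b', ha, hb, h1, h2, h3, h4, rfl, h⟩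

lemma isHyp_card {cl : V → Bool} {m : V → V → ZMod 2} {E : Finset V} (h : IsHyp cl m E) :
    E.card = 4 ∧ (E.filter (fun v => cl v = true)).card = 2 ∧
      (E.filter (fun v => cl v = false)).card = 2 := by
  obtain ⟨a, a', b, b', ha, hb, h1, h2, h3, h4, rfl, -⟩ := h
  have n1 : a ≠ b := by rintro rfl; rw [h1] at h3; exact absurd h3 (by decide)
  have n2 : a ≠ b' := by rintro rfl; rw [h1] at h4; exact absurd h4 (by decide)
  have n3 : a' ≠ b := by rintro rfl; rw [h2] at h3; exact absurd h3 (by decide)
  have n4 : a' ≠ b' := by rintro rfl; rw [h2] at h4; exact absurd h4 (by decide)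
  refine ⟨?_, ?_, ?_⟩
  · rw [card_insert_of_notMem, card_insert_of_notMem, card_insert_of_notMem, card_singleton]
    · simpa using hb
    · simp [n3, n4]
    · simp [ha, n1, n2]
  · have : ({a, a', b, b'} : Finset V).filter (fun v => cl v = true) = {a, a'} := by
      ext x
      simp only [mem_filter, mem_insert, mem_singleton]
      constructor
      · rintro ⟨h | h | h | h, hx⟩
        · exact Or.inl h
        · exact Or.inr h
        · rw [h, h3] at hx; exact absurd hx (by decide)
        · rw [h, h4] at hx; exact absurd hx (by decide)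
      · rintro (h | h)
        · exact ⟨Or.inl h, by rw [h, h1]⟩
        · exact ⟨Or.inr (Or.inl h), by rw [h, h2]⟩
    rw [this, card_pair ha]
  · have : ({a, a', b, b'} : Finset V).filter (fun v => cl v = false) = {b, b'} := by
      ext x
      simp only [mem_filter, mem_insert, mem_singleton]
      constructor
      · rintro ⟨h | h | h | h, hx⟩
        · rw [h, h1] at hx; exact absurd hx (by decide)
        · rw [h, h2] at hx; exact absurd hx (by decide)
        · exact Or.inl h
        · exact Or.inr h
      · rintro (h | h)
        · exact ⟨Or.inr (Or.inr (Or.inl h)), by rw [h, h3]⟩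
        · exact ⟨Or.inr (Or.inr (Or.inr h)), by rw [h, h4]⟩
    rw [this, card_pair hb]

/-- the two classes play the same role -/
lemma isHyp_flip {cl : V → Bool} {m : V → V → ZMod 2} {E : Finset V} :
    IsHyp cl m E ↔ IsHyp (fun v => !cl v) (fun x y => m y x) E := by
  constructor
  · rintro ⟨a, a', b, b', ha, hb, h1, h2, h3, h4, rfl, h⟩
    refine ⟨b, b', a, a', hb, ha, by simp [h3], by simp [h4], by simp [h1], by simp [h2], ?_, ?_⟩
    · ext x; simp only [mem_insert, mem_singleton]; tauto
    · rw [← h]; ring
  · rintro ⟨a, a', b, b', ha, hb, h1, h2, h3, h4, rfl, h⟩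
    refine ⟨b, b', a, a', hb, ha, by simpa using h3, by simpa using h4, by simpa using h1,
      by simpa using h2, ?_, ?_⟩
    · ext x; simp only [mem_insert, mem_singleton]; tauto
    · rw [← h]; ring

/-- the parity condition for a `5`-set of type `(3, 2)` -/
lemma parity32 {cl : V → Bool} {m : V → V → ZMod 2} (F : Finset (Finset V))
    (hF : ∀ E, E ∈ F ↔ IsHyp cl m E) (S : Finset V) (hS : S.card = 5)
    (hT : (S.filter (fun v => cl v = true)).card = 3)
    (hU : (S.filter (fun v => cl v = false)).card = 2)
    [∀ E : Finset V, Decidable (E ⊆ S)] :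
    Even (F.filter (fun E => E ⊆ S)).card := by
  classical
  rw [← ZMod.natCast_eq_zero_iff_even, card_sub F (fun E hE => (isHyp_card ((hF E).1 hE)).1) S hS]
  obtain ⟨x, y, z, hxy, hxz, hyz, hT'⟩ := card_eq_three.1 hT
  obtain ⟨u, w, huw, hU'⟩ := card_eq_two.1 hU
  have hx : x ∈ S ∧ cl x = true := by
    have : x ∈ S.filter (fun v => cl v = true) := by rw [hT']; simp
    exact mem_filter.1 this
  have hy : y ∈ S ∧ cl y = true := by
    have : y ∈ S.filter (fun v => cl v = true) := by rw [hT']; simp
    exact mem_filter.1 this
  have hz : z ∈ S ∧ cl z = true := by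
    have : z ∈ S.filter (fun v => cl v = true) := by rw [hT']; simp
    exact mem_filter.1 this
  have hu : u ∈ S ∧ cl u = false := by
    have : u ∈ S.filter (fun v => cl v = false) := by rw [hU']; simp
    exact mem_filter.1 this
  have hw : w ∈ S ∧ cl w = false := by
    have : w ∈ S.filter (fun v => cl v = false) := by rw [hU']; simp
    exact mem_filter.1 this
  have nxu : x ≠ u := by rintro rfl; rw [hx.2] at hu; exact absurd hu.2 (by decide)
  have nxw : x ≠ w := by rintro rfl; rw [hx.2] at hw; exact absurd hw.2 (by decide)
  have nyu : y ≠ u := by rintro rfl; rw [hy.2] at hu; exact absurd hu.2 (by decide)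
  have nyw : y ≠ w := by rintro rfl; rw [hy.2] at hw; exact absurd hw.2 (by decide)
  have nzu : z ≠ u := by rintro rfl; rw [hz.2] at hu; exact absurd hu.2 (by decide)
  have nzw : z ≠ w := by rintro rfl; rw [hz.2] at hw; exact absurd hw.2 (by decide)
  have hS' : S = {x, y, z, u, w} := by
    ext v
    simp only [mem_insert, mem_singleton]
    constructor
    · intro hv
      cases hc : cl v with
      | true =>
        have : v ∈ S.filter (fun v => cl v = true) := mem_filter.2 ⟨hv, hc⟩
        rw [hT'] at this
        simp only [mem_insert, mem_singleton] at this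
        tauto
      | false =>
        have : v ∈ S.filter (fun v => cl v = false) := mem_filter.2 ⟨hv, hc⟩
        rw [hU'] at this
        simp only [mem_insert, mem_singleton] at this
        tauto
    · rintro (rfl | rfl | rfl | rfl | rfl)
      · exact hx.1
      · exact hy.1
      · exact hz.1
      · exact hu.1
      · exact hw.1
  have ex : S.erase x = {y, z, u, w} := by
    rw [hS']; ext v; simp only [mem_erase, mem_insert, mem_singleton]
    constructor
    · tauto
    · rintro (rfl | rfl | rfl | rfl)
      · exact ⟨hxy.symm, by tauto⟩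
      · exact ⟨hxz.symm, by tauto⟩
      · exact ⟨nxu.symm, by tauto⟩
      · exact ⟨nxw.symm, by tauto⟩
  have ey : S.erase y = {x, z, u, w} := by
    rw [hS']; ext v; simp only [mem_erase, mem_insert, mem_singleton]
    constructor
    · tauto
    · rintro (rfl | rfl | rfl | rfl)
      · exact ⟨hxy, by tauto⟩
      · exact ⟨hyz.symm, by tauto⟩
      · exact ⟨nyu.symm, by tauto⟩
      · exact ⟨nyw.symm, by tauto⟩
  have ez : S.erase z = {x, y, u, w} := by
    rw [hS']; ext v; simp only [mem_erase, mem_insert, mem_singleton]
    constructor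
    · tauto
    · rintro (rfl | rfl | rfl | rfl)
      · exact ⟨hxz, by tauto⟩
      · exact ⟨hyz, by tauto⟩
      · exact ⟨nzu.symm, by tauto⟩
      · exact ⟨nzw.symm, by tauto⟩
  have eu : S.erase u ∉ F := by
    rw [hF]
    intro h
    have h1 := (isHyp_card h).2.2
    have h2 : (S.erase u).filter (fun v => cl v = false) = {w} := by
      rw [Finset.filter_erase, hU']
      ext v; simp only [mem_erase, mem_insert, mem_singleton]
      constructor
      · tauto
      · rintro rfl; exact ⟨huw.symm, by tauto⟩
    rw [h2, card_singleton] at h1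
    exact absurd h1 (by decide)
  have ew : S.erase w ∉ F := by
    rw [hF]
    intro h
    have h1 := (isHyp_card h).2.2
    have h2 : (S.erase w).filter (fun v => cl v = false) = {u} := by
      rw [Finset.filter_erase, hU']
      ext v; simp only [mem_erase, mem_insert, mem_singleton]
      constructor
      · tauto
      · rintro rfl; exact ⟨huw, by tauto⟩
    rw [h2, card_singleton] at h1
    exact absurd h1 (by decide)
  have gx : (if S.erase x ∈ F then (1 : ZMod 2) else 0) = m y u + m z u + m y w + m z w := by
    rw [← ite_one (m y u + m z u + m y w + m z w)]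
    refine if_congr ?_ rfl rfl
    rw [hF, ex]
    exact isHyp_mk hyz huw hy.2 hz.2 hu.2 hw.2
  have gy : (if S.erase y ∈ F then (1 : ZMod 2) else 0) = m x u + m z u + m x w + m z w := by
    rw [← ite_one (m x u + m z u + m x w + m z w)]
    refine if_congr ?_ rfl rfl
    rw [hF, ey]
    exact isHyp_mk hxz huw hx.2 hz.2 hu.2 hw.2
  have gz : (if S.erase z ∈ F then (1 : ZMod 2) else 0) = m x u + m y u + m x w + m y w := by
    rw [← ite_one (m x u + m y u + m x w + m y w)]
    refine if_congr ?_ rfl rfl
    rw [hF, ez]
    exact isHyp_mk hxy huw hx.2 hy.2 hu.2 hw.2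
  have hsum : ∑ s ∈ S, (if S.erase s ∈ F then (1 : ZMod 2) else 0)
      = (if S.erase x ∈ F then (1 : ZMod 2) else 0) + ((if S.erase y ∈ F then (1 : ZMod 2) else 0)
        + ((if S.erase z ∈ F then (1 : ZMod 2) else 0) + ((if S.erase u ∈ F then (1 : ZMod 2) else 0)
        + (if S.erase w ∈ F then (1 : ZMod 2) else 0)))) := by
    conv_lhs => rw [hS']
    rw [sum_insert, sum_insert, sum_insert, sum_insert, sum_singleton, ← hS']
    · simpa using huw
    · simp [nzu, nzw]
    · simp [hyz, nyu, nyw]
    · simp [hxy, hxz, nxu, nxw]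
  rw [hsum, gx, gy, gz, if_neg eu, if_neg ew]
  have h2 : (2 : ZMod 2) = 0 := rfl
  linear_combination (m y u + m z u + m y w + m z w + m x u + m x w) * h2

/-- the parity condition -/
lemma parity {cl : V → Bool} {m : V → V → ZMod 2} (F : Finset (Finset V))
    (hF : ∀ E, E ∈ F ↔ IsHyp cl m E) (S : Finset V) (hS : S.card = 5)
    (hT : (S.filter (fun v => cl v = true)).card ≤ 3)
    (hU : (S.filter (fun v => cl v = false)).card ≤ 3)
    [∀ E : Finset V, Decidable (E ⊆ S)] :
    Even (F.filter (fun E => E ⊆ S)).card := by
  have h1 : (S.filter (fun v => cl v = true)).card + (S.filter (fun v => cl v = false)).card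
      = 5 := by
    rw [← hS, ← Finset.card_filter_add_card_filter_not (s := S) (fun v => cl v = true)]
    congr 2
    ext v
    simp
  have h2 : (S.filter (fun v => cl v = true)).card = 3 ∧
      (S.filter (fun v => cl v = false)).card = 2 ∨
      (S.filter (fun v => cl v = true)).card = 2 ∧
      (S.filter (fun v => cl v = false)).card = 3 := by omega
  rcases h2 with ⟨h3, h4⟩ | ⟨h3, h4⟩
  · exact parity32 F hF S hS h3 h4
  · refine parity32 (cl := fun v => !cl v) (m := fun x y => m y x) F
      (fun E => (hF E).trans isHyp_flip) S hS ?_ ?_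
    · rw [← h4]; congr 2; ext v; simp
    · rw [← h3]; congr 2; ext v; simp

end Pool.Agent.N102.EPPA
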