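import Mathlib
import Pool.Agent.N102.EPPA.Basic

/-!
# Every three-graph comes from a pairing; transfer of hyperedges
-/

set_option autoImplicit false

namespace Pool.Agent.N102.EPPA

open Finset

section Repr

variable {V : Type*} [DecidableEq V]

/-- the indicator of a quadruple -/
noncomputable def ind (H : Finset (Finset V)) (a a' b b' : V) : ZMod 2 :=
  if ({a, a', b, b'} : Finset V) ∈ H then 1 else 0

lemma ind_swap (H : Finset (Finset V)) (a a' b b' : V) : ind H a a' b b' = ind H b b' a a' := by
  unfold ind
  refine if_congr ?_ rfl rfl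
  have : ({a, a', b, b'} : Finset V) = {b, b', a, a'} := by
    ext x; simp only [mem_insert, mem_singleton]; tauto
  rw [this]

lemma ind_symm (H : Finset (Finset V)) (a a' b b' : V) : ind H a a' b b' = ind H a' a b b' := by
  unfold ind
  refine if_congr ?_ rfl rfl
  have : ({a, a', b, b'} : Finset V) = {a', a, b, b'} := by
    ext x; simp only [mem_insert, mem_singleton]; tauto
  rw [this]

lemma card_four_le (a a' b b' : V) (h : a = a') : ({a, a', b, b'} : Finset V).card ≤ 3 := by
  subst h
  have : ({a, a, b, b'} : Finset V) = {a, b, b'} := by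
    ext x; simp only [mem_insert, mem_singleton]; tauto
  rw [this]
  exact card_le_three

lemma ind_self (H : Finset (Finset V)) (h4 : ∀ E ∈ H, E.card = 4) (a b b' : V) :
    ind H a a b b' = 0 := by
  unfold ind
  rw [if_neg]
  intro h
  have h1 := h4 _ h
  have h2 := card_four_le a a b b' rfl
  omega

lemma ind_self' (H : Finset (Finset V)) (h4 : ∀ E ∈ H, E.card = 4) (a a' b : V) :
    ind H a a' b b = 0 := by
  rw [ind_swap, ind_self H h4]

/-- erasing the second of five different elements -/
lemma erase_two {x y z u w : V} (h1 : x ≠ y) (h2 : z ≠ y) (h3 : u ≠ y) (h4 : w ≠ y) :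
    ({x, y, z, u, w} : Finset V).erase y = {x, z, u, w} := by
  ext v; simp only [mem_erase, mem_insert, mem_singleton]
  constructor
  · rintro ⟨h, h' | h' | h' | h' | h'⟩
    · exact Or.inl h'
    · exact absurd h' h
    · exact Or.inr (Or.inl h')
    · exact Or.inr (Or.inr (Or.inl h'))
    · exact Or.inr (Or.inr (Or.inr h'))
  · rintro (h' | h' | h' | h')
    · exact ⟨h' ▸ h1, Or.inl h'⟩
    · exact ⟨h' ▸ h2, Or.inr (Or.inr (Or.inl h'))⟩
    · exact ⟨h' ▸ h3, Or.inr (Or.inr (Or.inr (Or.inl h')))⟩
    · exact ⟨h' ▸ h4, Or.inr (Or.inr (Or.inr (Or.inr h')))⟩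

/-- erasing the third of five different elements -/
lemma erase_three {x y z u w : V} (h1 : x ≠ z) (h2 : y ≠ z) (h3 : u ≠ z) (h4 : w ≠ z) :
    ({x, y, z, u, w} : Finset V).erase z = {x, y, u, w} := by
  have : ({x, y, z, u, w} : Finset V) = {x, z, y, u, w} := by
    rw [Finset.insert_comm y z]
  rw [this, erase_two h1 h2 h3 h4]

/-- the structure of a three-graph on a type with class map `c` -/
structure Three (c : V → Bool) (H : Finset (Finset V)) : Prop where
  four : ∀ E ∈ H, E.card = 4
  two : ∀ E ∈ H, ∀ v ∈ E, (E.filter (fun w => c v = c w)).card = 2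
  par : ∀ S : Finset V, S.card = 5 → (∀ v ∈ S, (S.filter (fun w => c v = c w)).card ≤ 3) →
    ∑ s ∈ S, (if S.erase s ∈ H then (1 : ZMod 2) else 0) = 0

lemma Three.coc_ne {c : V → Bool} {H : Finset (Finset V)} (h : Three c H) {x y z u w : V}
    (hxy : c x = c y) (hyz : c y = c z) (huw : c u = c w) (hxu : c x ≠ c u)
    (nxy : x ≠ y) (nyz : y ≠ z) (nxz : x ≠ z) (nuw : u ≠ w) :
    ind H x y u w + ind H y z u w + ind H x z u w = 0 := by
  have hxw : c x ≠ c w := by rw [← huw]; exact hxu
  have hyu : c y ≠ c u := by rw [← hxy]; exact hxu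
  have hyw : c y ≠ c w := by rw [← hxy]; exact hxw
  have hzu : c z ≠ c u := by rw [← hyz]; exact hyu
  have hzw : c z ≠ c w := by rw [← hyz]; exact hyw
  have nxu : x ≠ u := fun h => hxu (by rw [h])
  have nxw : x ≠ w := fun h => hxw (by rw [h])
  have nyu : y ≠ u := fun h => hyu (by rw [h])
  have nyw : y ≠ w := fun h => hyw (by rw [h])
  have nzu : z ≠ u := fun h => hzu (by rw [h])
  have nzw : z ≠ w := fun h => hzw (by rw [h])
  have i1 : w ∉ ({} : Finset V) := by simp
  have i2 : u ∉ ({w} : Finset V) := by simpa using nuw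
  have i3 : z ∉ ({u, w} : Finset V) := by simp [nzu, nzw]
  have i4 : y ∉ ({z, u, w} : Finset V) := by simp [nyz, nyu, nyw]
  have i5 : x ∉ ({y, z, u, w} : Finset V) := by simp [nxy, nxz, nxu, nxw]
  have hcard : ({x, y, z, u, w} : Finset V).card = 5 := by
    rw [card_insert_of_notMem i5, card_insert_of_notMem i4, card_insert_of_notMem i3,
      card_insert_of_notMem i2, card_singleton]
  have key := h.par {x, y, z, u, w} hcard (by
    intro v hv
    by_cases hvx : c v = c x
    · refine le_trans (card_le_card (t := {x, y, z}) ?_) card_le_three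
      intro t ht
      rw [mem_filter] at ht
      obtain ⟨ht1, ht2⟩ := ht
      simp only [mem_insert, mem_singleton] at ht1 ⊢
      rcases ht1 with h1 | h1 | h1 | h1 | h1
      · exact Or.inl h1
      · exact Or.inr (Or.inl h1)
      · exact Or.inr (Or.inr h1)
      · exact absurd (by rw [← hvx, ht2, h1]) hxu
      · exact absurd (by rw [← hvx, ht2, h1]) hxw
    · refine le_trans (card_le_card (t := {u, w, w}) ?_) card_le_three
      intro t ht
      rw [mem_filter] at ht
      obtain ⟨ht1, ht2⟩ := ht
      simp only [mem_insert, mem_singleton] at ht1 ⊢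
      rcases ht1 with h1 | h1 | h1 | h1 | h1
      · exact absurd (by rw [ht2, h1]) hvx
      · exact absurd (by rw [ht2, h1, hxy]) hvx
      · exact absurd (by rw [ht2, h1, ← hyz, hxy]) hvx
      · exact Or.inl h1
      · exact Or.inr (Or.inl h1))
  rw [sum_insert i5, sum_insert i4, sum_insert i3, sum_insert i2, sum_singleton] at key
  have ex : ({x, y, z, u, w} : Finset V).erase x = {y, z, u, w} := erase_insert i5
  have ey : ({x, y, z, u, w} : Finset V).erase y = {x, z, u, w} :=
    erase_two nxy nyz.symm nyu.symm nyw.symm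
  have ez : ({x, y, z, u, w} : Finset V).erase z = {x, y, u, w} :=
    erase_three nxz nyz nzu.symm nzw.symm
  have bad : ∀ t t' : V, (t = u ∧ t' = w ∨ t = w ∧ t' = u) →
      ({x, y, z, u, w} : Finset V).erase t ∉ H := by
    intro t t' ht hE
    have h1 := h.two _ hE x (by
      rw [mem_erase]
      refine ⟨?_, by simp⟩
      rcases ht with ⟨rfl, -⟩ | ⟨rfl, -⟩
      · exact nxu
      · exact nxw)
    have h2 : ({x, y, z} : Finset V) ⊆
        (({x, y, z, u, w} : Finset V).erase t).filter (fun v => c x = c v) := by
      intro v hv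
      rw [mem_filter, mem_erase]
      simp only [mem_insert, mem_singleton] at hv ⊢
      rcases ht with ⟨rfl, -⟩ | ⟨rfl, -⟩ <;> rcases hv with rfl | rfl | rfl
      · exact ⟨⟨nxu, Or.inl rfl⟩, rfl⟩
      · exact ⟨⟨nyu, Or.inr (Or.inl rfl)⟩, hxy⟩
      · exact ⟨⟨nzu, Or.inr (Or.inr (Or.inl rfl))⟩, hxy.trans hyz⟩
      · exact ⟨⟨nxw, Or.inl rfl⟩, rfl⟩
      · exact ⟨⟨nyw, Or.inr (Or.inl rfl)⟩, hxy⟩
      · exact ⟨⟨nzw, Or.inr (Or.inr (Or.inl rfl))⟩, hxy.trans hyz⟩
    have h3 := card_le_card h2
    rw [h1, card_insert_of_notMem (by simp [nxy, nxz]), card_insert_of_notMem (by simpa using nyz),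
      card_singleton] at h3
    omega
  rw [ex, ey, ez, if_neg (bad u w (Or.inl ⟨rfl, rfl⟩)), if_neg (bad w u (Or.inr ⟨rfl, rfl⟩))]
    at key
  unfold ind
  linear_combination key

lemma Three.coc {c : V → Bool} {H : Finset (Finset V)} (h : Three c H) {x y z u w : V}
    (hxy : c x = c y) (hyz : c y = c z) (huw : c u = c w) (hxu : c x ≠ c u) :
    ind H x y u w + ind H y z u w + ind H x z u w = 0 := by
  by_cases nuw : u = w
  · subst nuw
    simp only [ind_self' H h.four, add_zero]
  by_cases nxy : x = y
  · subst nxy
    rw [ind_self H h.four, zero_add, two_self]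
  by_cases nyz : y = z
  · subst nyz
    rw [ind_self H h.four, add_zero, two_self]
  by_cases nxz : x = z
  · subst nxz
    rw [ind_self H h.four, add_zero, ind_symm H y x, two_self]
  exact h.coc_ne hxy hyz huw hxu nxy nyz nxz nuw

/-- a three-graph comes from a pairing -/
lemma Three.exists_pairing {c : V → Bool} {H : Finset (Finset V)} (h : Three c H) :
    ∃ e : V → V → ZMod 2, ∀ a a' b b', c a = true → c a' = true → c b = false → c b' = false →
      ind H a a' b b' = e a b + e a' b + e a b' + e a' b' := by
  by_cases hx : ∃ x0, c x0 = true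
  · by_cases hy : ∃ y0, c y0 = false
    · obtain ⟨x0, hx0⟩ := hx
      obtain ⟨y0, hy0⟩ := hy
      refine ⟨fun a b => ind H a x0 b y0, fun a a' b b' ha ha' hb hb' => ?_⟩
      have tf : (true : Bool) ≠ false := by decide
      have k1 := h.coc (x := a) (y := a') (z := x0) (u := b) (w := b') (by rw [ha, ha'])
        (by rw [ha', hx0]) (by rw [hb, hb']) (by rw [ha, hb]; exact tf)
      have k2 := h.coc (x := b) (y := b') (z := y0) (u := a) (w := x0) (by rw [hb, hb'])
        (by rw [hb', hy0]) (by rw [ha, hx0]) (by rw [ha, hb]; exact tf.symm)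
      have k3 := h.coc (x := b) (y := b') (z := y0) (u := a') (w := x0) (by rw [hb, hb'])
        (by rw [hb', hy0]) (by rw [ha', hx0]) (by rw [ha', hb]; exact tf.symm)
      rw [ind_swap H b b' a x0, ind_swap H b' y0 a x0, ind_swap H b y0 a x0] at k2
      rw [ind_swap H b b' a' x0, ind_swap H b' y0 a' x0, ind_swap H b y0 a' x0] at k3
      have h2 : (2 : ZMod 2) = 0 := rfl
      simp only
      linear_combination k1 + k2 + k3 - (ind H a' x0 b b' + ind H a x0 b b' + ind H a x0 b y0
        + ind H a' x0 b y0 + ind H a x0 b' y0 + ind H a' x0 b' y0) * h2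
    · refine ⟨fun _ _ => 0, fun a a' b b' _ _ hb _ => ?_⟩
      exact absurd ⟨b, hb⟩ hy
  · refine ⟨fun _ _ => 0, fun a a' b b' ha _ _ _ => ?_⟩
    exact absurd ⟨a, ha⟩ hx

/-- the hyperedges of a three-graph are those of its pairing -/
lemma Three.mem_iff {c : V → Bool} {H : Finset (Finset V)} (h : Three c H)
    {m : V → V → ZMod 2} (hm : ∀ a a' b b', c a = true → c a' = true → c b = false →
      c b' = false → ind H a a' b b' = m a b + m a' b + m a b' + m a' b') (E : Finset V) :
    E ∈ H ↔ IsHyp c m E := by
  constructor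
  · intro hE
    have h4 := h.four E hE
    have h2 := h.two E hE
    have h5 : (E.filter (fun v => c v = true)).card + (E.filter (fun v => c v = false)).card
        = 4 := by
      rw [← h4, ← Finset.card_filter_add_card_filter_not (s := E) (fun v => c v = true)]
      congr 2
      ext v
      simp
    have hT : (E.filter (fun v => c v = true)).card = 2 := by
      by_cases hne : (E.filter (fun v => c v = true)).Nonempty
      · obtain ⟨v, hv⟩ := hne
        rw [mem_filter] at hv
        have h6 := h2 v hv.1
        rw [← h6]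
        congr 1
        ext w
        simp only [mem_filter]
        rw [hv.2]
        constructor
        · rintro ⟨h7, h8⟩; exact ⟨h7, h8.symm⟩
        · rintro ⟨h7, h8⟩; exact ⟨h7, h8.symm⟩
      · rw [not_nonempty_iff_eq_empty] at hne
        rw [hne, card_empty, zero_add] at h5
        have hne2 : (E.filter (fun v => c v = false)).Nonempty := by
          rw [← card_pos]; omega
        obtain ⟨v, hv⟩ := hne2
        rw [mem_filter] at hv
        have h6 := h2 v hv.1
        exfalso
        have : (E.filter (fun w => c v = c w)).card = 4 := by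
          rw [← h5]
          congr 1
          ext w
          simp only [mem_filter]
          rw [hv.2]
          constructor
          · rintro ⟨h7, h8⟩; exact ⟨h7, h8.symm⟩
          · rintro ⟨h7, h8⟩; exact ⟨h7, h8.symm⟩
        omega
    have hU : (E.filter (fun v => c v = false)).card = 2 := by omega
    obtain ⟨a, a', haa, hT'⟩ := card_eq_two.1 hT
    obtain ⟨b, b', hbb, hU'⟩ := card_eq_two.1 hU
    have ha : a ∈ E ∧ c a = true := by
      have : a ∈ E.filter (fun v => c v = true) := by rw [hT']; simp
      exact mem_filter.1 this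
    have ha' : a' ∈ E ∧ c a' = true := by
      have : a' ∈ E.filter (fun v => c v = true) := by rw [hT']; simp
      exact mem_filter.1 this
    have hb : b ∈ E ∧ c b = false := by
      have : b ∈ E.filter (fun v => c v = false) := by rw [hU']; simp
      exact mem_filter.1 this
    have hb' : b' ∈ E ∧ c b' = false := by
      have : b' ∈ E.filter (fun v => c v = false) := by rw [hU']; simp
      exact mem_filter.1 this
    have hE' : E = {a, a', b, b'} := by
      ext v
      simp only [mem_insert, mem_singleton]
      constructor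
      · intro hv
        cases hc : c v with
        | true =>
          have : v ∈ E.filter (fun v => c v = true) := mem_filter.2 ⟨hv, hc⟩
          rw [hT'] at this
          simp only [mem_insert, mem_singleton] at this
          tauto
        | false =>
          have : v ∈ E.filter (fun v => c v = false) := mem_filter.2 ⟨hv, hc⟩
          rw [hU'] at this
          simp only [mem_insert, mem_singleton] at this
          tauto
      · rintro (rfl | rfl | rfl | rfl)
        · exact ha.1
        · exact ha'.1
        · exact hb.1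
        · exact hb'.1
    refine ⟨a, a', b, b', haa, hbb, ha.2, ha'.2, hb.2, hb'.2, hE', ?_⟩
    rw [← hm a a' b b' ha.2 ha'.2 hb.2 hb'.2]
    unfold ind
    rw [if_pos]
    rw [← hE']
    exact hE
  · rintro ⟨a, a', b, b', haa, hbb, ha, ha', hb, hb', rfl, hs⟩
    rw [← hm a a' b b' ha ha' hb hb'] at hs
    by_contra hE
    unfold ind at hs
    rw [if_neg hE] at hs
    exact absurd hs (by decide)

end Repr

section Transfer

variable {V : Type*} [DecidableEq V] {W : Type*} [DecidableEq W]

lemma four_comm (x y z w : W) : ({x, y, z, w} : Finset W) = {z, w, x, y} := by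
  ext t; simp only [mem_insert, mem_singleton]; tauto

/-- transfer of the hyperedges along an embedding which respects the classes up to a swap and the
pairing up to a sum of two functions -/
lemma isHyp_map {cl : V → Bool} {m : V → V → ZMod 2} {cl' : W → Bool} {m' : W → W → ZMod 2}
    (f : V ↪ W) (s : Bool) (hcl : ∀ v, cl' (f v) = xor (cl v) s)
    (hsym : ∀ x y, m' x y = m' y x) (α β : V → ZMod 2)
    (hm : ∀ a b, cl a = true → cl b = false → m' (f a) (f b) = m a b + (α a + β b))
    (E : Finset V) : IsHyp cl m E ↔ IsHyp cl' m' (E.map f) := by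
  have h2 : (2 : ZMod 2) = 0 := rfl
  constructor
  · rintro ⟨a, a', b, b', haa, hbb, ha, ha', hb, hb', rfl, hs⟩
    have hmap : ({a, a', b, b'} : Finset V).map f = {f a, f a', f b, f b'} := by
      simp [Finset.map_insert]
    rw [hmap]
    have hsum : m' (f a) (f b) + m' (f a') (f b) + m' (f a) (f b') + m' (f a') (f b') = 1 := by
      rw [hm a b ha hb, hm a' b ha' hb, hm a b' ha hb', hm a' b' ha' hb']
      linear_combination hs + (α a + α a' + β b + β b') * h2
    cases s with
    | false =>
      refine ⟨f a, f a', f b, f b', fun h => haa (f.injective h), fun h => hbb (f.injective h),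
        by rw [hcl, ha]; rfl, by rw [hcl, ha']; rfl, by rw [hcl, hb]; rfl, by rw [hcl, hb']; rfl,
        rfl, hsum⟩
    | true =>
      refine ⟨f b, f b', f a, f a', fun h => hbb (f.injective h), fun h => haa (f.injective h),
        by rw [hcl, hb]; rfl, by rw [hcl, hb']; rfl, by rw [hcl, ha]; rfl, by rw [hcl, ha']; rfl,
        four_comm _ _ _ _, ?_⟩
      rw [hsym (f b) (f a), hsym (f b') (f a), hsym (f b) (f a'), hsym (f b') (f a'), ← hsum]
      ring
  · rintro ⟨c, c', d, d', hcc, hdd, hc, hc', hd, hd', hE, hs⟩
    have pre : ∀ x, x ∈ ({c, c', d, d'} : Finset W) → ∃ v ∈ E, f v = x := by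
      intro x hx
      rw [← hE, mem_map] at hx
      exact hx
    obtain ⟨p, hp, rfl⟩ := pre c (by simp)
    obtain ⟨p', hp', rfl⟩ := pre c' (by simp)
    obtain ⟨q, hq, rfl⟩ := pre d (by simp)
    obtain ⟨q', hq', rfl⟩ := pre d' (by simp)
    have hE' : E = {p, p', q, q'} := by
      apply Finset.map_injective f
      rw [hE]
      simp [Finset.map_insert]
    have npp : p ≠ p' := fun h => hcc (by rw [h])
    have nqq : q ≠ q' := fun h => hdd (by rw [h])
    rw [hcl] at hc hc' hd hd'
    cases s with
    | false =>
      rw [Bool.xor_false] at hc hc' hd hd'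
      refine ⟨p, p', q, q', npp, nqq, hc, hc', hd, hd', hE', ?_⟩
      rw [hm p q hc hd, hm p' q hc' hd, hm p q' hc hd', hm p' q' hc' hd'] at hs
      linear_combination hs - (α p + α p' + β q + β q') * h2
    | true =>
      have kp : cl p = false := by simpa using hc
      have kp' : cl p' = false := by simpa using hc'
      have kq : cl q = true := by simpa using hd
      have kq' : cl q' = true := by simpa using hd'
      refine ⟨q, q', p, p', nqq, npp, kq, kq', kp, kp', by rw [hE', four_comm], ?_⟩
      rw [hsym (f p) (f q), hsym (f p') (f q), hsym (f p) (f q'), hsym (f p') (f q'),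
        hm q p kq kp, hm q p' kq kp', hm q' p kq' kp, hm q' p' kq' kp'] at hs
      linear_combination hs - (α q + α q' + β p + β p') * h2

end Transfer

end Pool.Agent.N102.EPPA
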