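import Mathlib
import Pool.Agent.N102.EPPA.Repr

/-!
# Extension of partial automorphisms

The points of the extension are triples (class, index, function of the indices of the other
class); the pairing of `(a, i, χ)` and `(b, j, ψ)` is `χ j + ψ i`.
-/

set_option autoImplicit false

namespace Pool.Agent.N102.EPPA

open Finset

variable {n : ℕ}

/-- the points of the extension -/
abbrev Pt (n : ℕ) : Type := Bool × Fin n × (Fin n → ZMod 2)

/-- the pairing of the extension -/
def pr (u w : Pt n) : ZMod 2 := u.2.2 w.2.1 + w.2.2 u.2.1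

lemma pr_symm (u w : Pt n) : pr u w = pr w u := add_comm _ _

/-- the maps of the extension -/
def mv (s : Bool) (π : Bool → Equiv.Perm (Fin n)) (Φ : Bool → Fin n → Fin n → ZMod 2)
    (v : Pt n) : Pt n :=
  (xor v.1 s, π v.1 v.2.1, fun j => v.2.2 ((π (!v.1)).symm j) + Φ v.1 v.2.1 ((π (!v.1)).symm j))

lemma mv_injective (s : Bool) (π : Bool → Equiv.Perm (Fin n))
    (Φ : Bool → Fin n → Fin n → ZMod 2) : Function.Injective (mv s π Φ) := by
  rintro ⟨b, i, χ⟩ ⟨b', i', χ'⟩ h
  unfold mv at h
  rw [Prod.mk.injEq, Prod.mk.injEq] at h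
  obtain ⟨h1, h2, h3⟩ := h
  have hb : b = b' := by
    revert h1
    cases b <;> cases b' <;> cases s <;> simp
  subst hb
  have hi : i = i' := (π b).injective h2
  subst hi
  have hχ : χ = χ' := by
    funext j
    have h4 := congrFun h3 (π (!b) j)
    simp only [Equiv.symm_apply_apply] at h4
    exact add_right_cancel h4
  subst hχ
  rfl

lemma pr_mv (s : Bool) (π : Bool → Equiv.Perm (Fin n)) (Φ : Bool → Fin n → Fin n → ZMod 2)
    (u w : Pt n) (hu : u.1 = true) (hw : w.1 = false) :
    pr (mv s π Φ u) (mv s π Φ w) = pr u w + (Φ true u.2.1 w.2.1 + Φ false w.2.1 u.2.1) := by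
  obtain ⟨b, i, χ⟩ := u
  obtain ⟨b', j, ψ⟩ := w
  simp only at hu hw
  subst hu hw
  simp only [pr, mv, Bool.not_true, Bool.not_false, Equiv.symm_apply_apply]
  ring

lemma exists_perm (S : Finset (Fin n)) (p : Fin n → Fin n)
    (hp : Set.InjOn p (S : Set (Fin n))) :
    ∃ π : Equiv.Perm (Fin n), ∀ x ∈ S, π x = p x := by
  obtain ⟨g, hg⟩ := Finset.exists_equiv_extend_of_card_eq (α := Fin n) (β := Fin n)
    (t := univ) (by simp) (s := S) (f := p) (subset_univ _) hp
  refine ⟨g.trans (Equiv.subtypeUnivEquiv (fun x => mem_univ x)), fun x hx => ?_⟩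
  rw [Equiv.trans_apply]
  exact hg x hx

/-- a partial automorphism extends -/
lemma exists_ext (c : Fin n → Bool) (F : Fin n → Fin n → ZMod 2) (S : Finset (Fin n))
    (p : Fin n → Fin n) (hp : Set.InjOn p (S : Set (Fin n))) (s : Bool)
    (hs : ∀ x ∈ S, c (p x) = xor (c x) s)
    (hd : ∀ x ∈ S, ∀ x' ∈ S, ∀ y ∈ S, ∀ y' ∈ S, c x = true → c x' = true → c y = false →
      c y' = false →
      ((F x y + F y x) + (F (p x) (p y) + F (p y) (p x)))
      + ((F x' y + F y x') + (F (p x') (p y) + F (p y) (p x')))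
      + ((F x y' + F y' x) + (F (p x) (p y') + F (p y') (p x)))
      + ((F x' y' + F y' x') + (F (p x') (p y') + F (p y') (p x'))) = 0) :
    ∃ (σ : Pt n ≃ Pt n) (α β : Pt n → ZMod 2), (∀ v, (σ v).1 = xor v.1 s) ∧
      (∀ u w, u.1 = true → w.1 = false → pr (σ u) (σ w) = pr u w + (α u + β w)) ∧
      ∀ x ∈ S, σ (c x, x, F x) = (c (p x), p x, F (p x)) := by
  classical
  have h2 : (2 : ZMod 2) = 0 := rfl
  -- the two sums
  obtain ⟨α, β, hαβ⟩ : ∃ α β : Fin n → ZMod 2, ∀ x ∈ S, ∀ y ∈ S, c x = true → c y = false →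
      α x + β y = (F x y + F y x) + (F (p x) (p y) + F (p y) (p x)) := by
    by_cases hx : ∃ x0 ∈ S, c x0 = true
    · by_cases hy : ∃ y0 ∈ S, c y0 = false
      · obtain ⟨x0, hx0, hcx⟩ := hx
        obtain ⟨y0, hy0, hcy⟩ := hy
        refine ⟨fun x => (F x y0 + F y0 x) + (F (p x) (p y0) + F (p y0) (p x)),
          fun y => ((F x0 y + F y x0) + (F (p x0) (p y) + F (p y) (p x0)))
            + ((F x0 y0 + F y0 x0) + (F (p x0) (p y0) + F (p y0) (p x0))), ?_⟩
        intro x hxS y hyS hx' hy'
        have := hd x hxS x0 hx0 y hyS y0 hy0 hx' hcx hy' hcy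
        simp only
        linear_combination this - ((F x y + F y x) + (F (p x) (p y) + F (p y) (p x))) * h2
      · exact ⟨0, 0, fun x _ y hyS _ hy' => absurd ⟨y, hyS, hy'⟩ hy⟩
    · exact ⟨0, 0, fun x hxS y _ hx' _ => absurd ⟨x, hxS, hx'⟩ hx⟩
  obtain ⟨πt, hπt⟩ := exists_perm (S.filter (fun x => c x = true)) p
    (hp.mono (by intro x hx; exact (mem_filter.1 (mem_coe.1 hx)).1))
  obtain ⟨πf, hπf⟩ := exists_perm (S.filter (fun x => c x = false)) p
    (hp.mono (by intro x hx; exact (mem_filter.1 (mem_coe.1 hx)).1))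
  set π : Bool → Equiv.Perm (Fin n) := fun b => if b = true then πt else πf with hπ
  have hπT : π true = πt := rfl
  have hπF : π false = πf := rfl
  set Φt : Fin n → Fin n → ZMod 2 := fun i j =>
    if i ∈ S ∧ c i = true then F i j + F (p i) (πf j)
    else if j ∈ S ∧ c j = false then (α i + β j) + (F j i + F (p j) (πt i))
    else α i + β j with hΦt
  set Φf : Fin n → Fin n → ZMod 2 := fun j i =>
    if i ∈ S ∧ c i = true then (α i + β j) + (F i j + F (p i) (πf j))
    else if j ∈ S ∧ c j = false then F j i + F (p j) (πt i)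
    else 0 with hΦf
  set Φ : Bool → Fin n → Fin n → ZMod 2 := fun b => if b = true then Φt else Φf with hΦ
  have hΦT : Φ true = Φt := rfl
  have hΦF : Φ false = Φf := rfl
  have hsum : ∀ i j, Φt i j + Φf j i = α i + β j := by
    intro i j
    simp only [hΦt, hΦf]
    by_cases h1 : i ∈ S ∧ c i = true
    · rw [if_pos h1, if_pos h1]
      linear_combination (F i j + F (p i) (πf j)) * h2
    · rw [if_neg h1, if_neg h1]
      by_cases h3 : j ∈ S ∧ c j = false
      · rw [if_pos h3, if_pos h3]
        linear_combination (F j i + F (p j) (πt i)) * h2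
      · rw [if_neg h3, if_neg h3, add_zero]
  refine ⟨Equiv.ofBijective (mv s π Φ) (Finite.injective_iff_bijective.1 (mv_injective s π Φ)),
    fun v => α v.2.1, fun v => β v.2.1, fun v => rfl, ?_, ?_⟩
  · intro u w hu hw
    rw [Equiv.ofBijective_apply, Equiv.ofBijective_apply, pr_mv s π Φ u w hu hw, hΦT, hΦF, hsum]
  · intro x hx
    rw [Equiv.ofBijective_apply]
    unfold mv
    simp only
    rw [Prod.mk.injEq, Prod.mk.injEq]
    refine ⟨(hs x hx).symm, ?_, ?_⟩
    · cases hc : c x with
      | true => rw [hπT]; exact hπt x (mem_filter.2 ⟨hx, hc⟩)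
      | false => rw [hπF]; exact hπf x (mem_filter.2 ⟨hx, hc⟩)
    · funext j'
      cases hc : c x with
      | true =>
        rw [Bool.not_true, hπF, hΦT]
        obtain ⟨j, rfl⟩ := πf.surjective j'
        rw [Equiv.symm_apply_apply]
        simp only [hΦt]
        rw [if_pos ⟨hx, hc⟩]
        linear_combination (F x j) * h2
      | false =>
        rw [Bool.not_false, hπT, hΦF]
        obtain ⟨i, rfl⟩ := πt.surjective j'
        rw [Equiv.symm_apply_apply]
        simp only [hΦf]
        by_cases h1 : i ∈ S ∧ c i = true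
        · rw [if_pos h1, hαβ i h1.1 x hx h1.2 hc, hπf x (mem_filter.2 ⟨hx, hc⟩),
            hπt i (mem_filter.2 h1)]
          linear_combination (F x i + F i x + F (p i) (p x)) * h2
        · rw [if_neg h1, if_pos ⟨hx, hc⟩]
          linear_combination (F x i) * h2

end Pool.Agent.N102.EPPA
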