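import Mathlib
import Pool.Agent.N102.EPPA.Ext

/-!
# The class of finite three-graphs has the extension property for partial automorphisms
-/

set_option autoImplicit false

namespace Pool.Agent.N102.EPPA

open Finset

/-- the main theorem, for a three-graph with class map `c` -/
theorem main (n : ℕ) (c : Fin n → Bool) (H : Finset (Finset (Fin n))) (h : Three c H) :
    ∃ (m : ℕ) (c' : Fin m → Bool) (m' : Fin m → Fin m → ZMod 2),
      (∀ x y, m' x y = m' y x) ∧ ∃ f : Fin n ↪ Fin m,
        (∀ x, c' (f x) = c x) ∧ (∀ E : Finset (Fin n), E ∈ H ↔ IsHyp c' m' (E.map f)) ∧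
        ∀ (S : Finset (Fin n)) (p : Fin n → Fin n), Set.InjOn p (S : Set (Fin n)) →
          (∀ x ∈ S, ∀ y ∈ S, c x = c y ↔ c (p x) = c (p y)) →
          (∀ E ⊆ S, E ∈ H ↔ E.image p ∈ H) →
          ∃ (σ : Fin m ≃ Fin m) (s : Bool), (∀ x, c' (σ x) = xor (c' x) s) ∧
            (∀ E : Finset (Fin m), IsHyp c' m' E ↔ IsHyp c' m' (E.map σ.toEmbedding)) ∧
            ∀ x ∈ S, σ (f x) = f (p x) := by
  classical
  have h2 : (2 : ZMod 2) = 0 := rfl
  obtain ⟨e, he⟩ := h.exists_pairing
  set F : Fin n → Fin n → ZMod 2 := fun a b => if c a = true then e a b else 0 with hF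
  have hFe : ∀ a b, c a = true → c b = false → F a b + F b a = e a b := by
    intro a b ha hb
    simp only [hF]
    rw [if_pos ha, if_neg (by rw [hb]; decide), add_zero]
  have hm0 : ∀ a a' b b', c a = true → c a' = true → c b = false → c b' = false →
      ind H a a' b b' = (F a b + F b a) + (F a' b + F b a') + (F a b' + F b' a)
        + (F a' b' + F b' a') := by
    intro a a' b b' ha ha' hb hb'
    rw [hFe a b ha hb, hFe a' b ha' hb, hFe a b' ha hb', hFe a' b' ha' hb']
    exact he a a' b b' ha ha' hb hb'
  have hmem : ∀ E, E ∈ H ↔ IsHyp c (fun a b => F a b + F b a) E := fun E =>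
    h.mem_iff (m := fun a b => F a b + F b a) hm0 E
  set ε : Pt n ≃ Fin (Fintype.card (Pt n)) := Fintype.equivFin (Pt n) with hε
  obtain ⟨f0, hf0⟩ : ∃ f : Fin n ↪ Fin (Fintype.card (Pt n)), ∀ x, f x = ε (c x, x, F x) := by
    refine ⟨⟨fun x => ε (c x, x, F x), ?_⟩, fun x => rfl⟩
    intro x y hxy
    have h3 := ε.injective hxy
    rw [Prod.mk.injEq, Prod.mk.injEq] at h3
    exact h3.2.1
  refine ⟨Fintype.card (Pt n), fun a => (ε.symm a).1, fun a b => pr (ε.symm a) (ε.symm b),
    fun x y => pr_symm _ _, f0, ?_, ?_, ?_⟩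
  · intro x
    simp only [hf0, Equiv.symm_apply_apply]
  · intro E
    rw [hmem E]
    refine isHyp_map _ false (fun v => ?_) (fun x y => pr_symm _ _) 0 0 ?_ E
    · simp only [hf0, Equiv.symm_apply_apply, Bool.xor_false]
    · intro a b _ _
      simp only [hf0, Equiv.symm_apply_apply, pr, Pi.zero_apply, add_zero]
  · intro S p hp hcp hHp
    -- the swap
    obtain ⟨s, hs⟩ : ∃ s : Bool, ∀ x ∈ S, c (p x) = xor (c x) s := by
      by_cases hS : S.Nonempty
      · obtain ⟨x0, hx0⟩ := hS
        refine ⟨xor (c x0) (c (p x0)), fun x hx => ?_⟩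
        have h3 := hcp x hx x0 hx0
        revert h3
        cases c x <;> cases c x0 <;> cases c (p x) <;> cases c (p x0) <;> simp
      · rw [not_nonempty_iff_eq_empty] at hS
        refine ⟨false, fun x hx => ?_⟩
        rw [hS] at hx
        exact absurd hx (notMem_empty x)
    have hd : ∀ x ∈ S, ∀ x' ∈ S, ∀ y ∈ S, ∀ y' ∈ S, c x = true → c x' = true → c y = false →
        c y' = false →
        ((F x y + F y x) + (F (p x) (p y) + F (p y) (p x)))
        + ((F x' y + F y x') + (F (p x') (p y) + F (p y) (p x')))
        + ((F x y' + F y' x) + (F (p x) (p y') + F (p y') (p x)))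
        + ((F x' y' + F y' x') + (F (p x') (p y') + F (p y') (p x'))) = 0 := by
      intro x hx x' hx' y hy y' hy' cx cx' cy cy'
      have k1 := hm0 x x' y y' cx cx' cy cy'
      have k2 : ind H x x' y y' = ind H (p x) (p x') (p y) (p y') := by
        unfold ind
        refine if_congr ?_ rfl rfl
        rw [hHp {x, x', y, y'} (by
          intro t ht
          simp only [mem_insert, mem_singleton] at ht
          rcases ht with rfl | rfl | rfl | rfl <;> assumption)]
        simp [Finset.image_insert]
      have hpx := hs x hx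
      have hpx' := hs x' hx'
      have hpy := hs y hy
      have hpy' := hs y' hy'
      rw [cx] at hpx
      rw [cx'] at hpx'
      rw [cy] at hpy
      rw [cy'] at hpy'
      have k3 : ind H (p x) (p x') (p y) (p y')
          = (F (p x) (p y) + F (p y) (p x)) + (F (p x') (p y) + F (p y) (p x'))
            + (F (p x) (p y') + F (p y') (p x)) + (F (p x') (p y') + F (p y') (p x')) := by
        cases hsb : s with
        | false =>
          rw [hsb] at hpx hpx' hpy hpy'
          exact hm0 (p x) (p x') (p y) (p y') (by simpa using hpx) (by simpa using hpx')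
            (by simpa using hpy) (by simpa using hpy')
        | true =>
          rw [hsb] at hpx hpx' hpy hpy'
          rw [ind_swap, hm0 (p y) (p y') (p x) (p x') (by simpa using hpy) (by simpa using hpy')
            (by simpa using hpx) (by simpa using hpx')]
          ring
      rw [k2, k3] at k1
      linear_combination (-1 : ZMod 2) * k1
        + ((F (p x) (p y) + F (p y) (p x)) + (F (p x') (p y) + F (p y) (p x'))
            + (F (p x) (p y') + F (p y') (p x)) + (F (p x') (p y') + F (p y') (p x'))) * h2
    obtain ⟨σ, α, β, hσ1, hσ2, hσ3⟩ := exists_ext c F S p hp s hs hd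
    refine ⟨(ε.symm.trans σ).trans ε, s, ?_, ?_, ?_⟩
    · intro x
      simp only [Equiv.trans_apply, Equiv.symm_apply_apply]
      exact hσ1 _
    · intro E
      refine isHyp_map _ s (fun v => ?_) (fun x y => pr_symm _ _) (fun a => α (ε.symm a))
        (fun a => β (ε.symm a)) ?_ E
      · simp only [Equiv.coe_toEmbedding, Equiv.trans_apply, Equiv.symm_apply_apply]
        exact hσ1 _
      · intro a b ha hb
        simp only [Equiv.coe_toEmbedding, Equiv.trans_apply, Equiv.symm_apply_apply]
        exact hσ2 _ _ ha hb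
    · intro x hx
      rw [hf0, hf0, Equiv.trans_apply, Equiv.trans_apply, Equiv.symm_apply_apply, hσ3 x hx]

end Pool.Agent.N102.EPPA
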